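import Pool.Agent.helper52.EU.SpecW

/-!
# Row eu:WRZ (MP_ad8ced_nt): the rows of a window
-/

set_option autoImplicit false

open Finset

namespace Pool.Agent.EU

open Pool.Agent.FI Pool.Agent.HK Pool.Agent.BP
open Pool.Agent.CH (nit)

lemma WRZ_s8 : √8 * √8 = (8 : ℝ) := Real.mul_self_sqrt (by norm_num)

lemma WRZ_s8pos : (0 : ℝ) < √8 := Real.sqrt_pos.2 (by norm_num)

lemma WRZ_s8lo : (2 : ℝ) < √8 := by
  rw [Real.lt_sqrt (by norm_num)]
  norm_num

lemma WRZ_s8hi : √8 < (3 : ℝ) := by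
  rw [Real.sqrt_lt' (by norm_num)]
  norm_num

lemma WRZ_F (y : ℝ) : Real.tanh (y / 2) = (Real.exp y - 1) / (Real.exp y + 1) := by
  rw [Real.tanh_eq]
  have h : Real.exp y = Real.exp (y / 2) * Real.exp (y / 2) := by
    rw [← Real.exp_add]
    congr 1
    ring
  have h2 : Real.exp (-(y / 2)) = (Real.exp (y / 2))⁻¹ := Real.exp_neg _
  have h3 := Real.exp_pos (y / 2)
  rw [h, h2]
  field_simp

lemma WRZ_lt (B m y : ℝ) (hm : |m| < B) : y < Real.log ((B + m) / (B - m)) ↔ B * Real.tanh (y / 2) < m := by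
  obtain ⟨h1, h2⟩ := abs_lt.1 hm
  have p1 : 0 < B + m := by linarith
  have p2 : 0 < B - m := by linarith
  have pe := Real.exp_pos y
  rw [Real.lt_log_iff_exp_lt (div_pos p1 p2), lt_div_iff₀ p2, WRZ_F, ← mul_div_assoc, div_lt_iff₀ (by linarith)]
  constructor <;> intro h <;> linarith

lemma WRZ_hasD (y : ℝ) : HasDerivAt (fun y : ℝ => (Real.exp y - 1) / (Real.exp y + 1)) (2 * Real.exp y / (Real.exp y + 1) ^ 2) y := by
  have pe := Real.exp_pos y
  have h1 : HasDerivAt (fun y : ℝ => Real.exp y - 1) (Real.exp y) y := (Real.hasDerivAt_exp y).sub_const 1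
  have h2 : HasDerivAt (fun y : ℝ => Real.exp y + 1) (Real.exp y) y := (Real.hasDerivAt_exp y).add_const 1
  have h3 := h1.div h2 (by positivity)
  have e : (Real.exp y * (Real.exp y + 1) - (Real.exp y - 1) * Real.exp y) / (Real.exp y + 1) ^ 2 =
      2 * Real.exp y / (Real.exp y + 1) ^ 2 := by
    congr 1
    ring
  rw [e] at h3
  exact h3

lemma WRZ_lip (y h : ℝ) (hh : 0 ≤ h) : Real.tanh ((y + h) / 2) - Real.tanh (y / 2) ≤ h / 2 := by
  rw [WRZ_F, WRZ_F]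
  have hd : Differentiable ℝ fun y : ℝ => (Real.exp y - 1) / (Real.exp y + 1) := fun y => (WRZ_hasD y).differentiableAt
  have h1 : ∀ x, deriv (fun y : ℝ => (Real.exp y - 1) / (Real.exp y + 1)) x ≤ 1 / 2 := by
    intro x
    rw [(WRZ_hasD x).deriv]
    have pe := Real.exp_pos x
    rw [div_le_iff₀ (by positivity)]
    nlinarith [sq_nonneg (Real.exp x - 1)]
  have h2 := image_sub_le_mul_sub_of_deriv_le hd h1 (show y ≤ y + h by linarith)
  have e : 1 / 2 * (y + h - y) = h / 2 := by ring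
  rw [e] at h2
  exact h2

lemma WRZ_up (y : ℝ) (hy : y ≤ lep) : Real.tanh (y / 2) * √8 ≤ 2 := by
  have s1 := WRZ_s8
  have s2 := WRZ_s8pos
  have pe := Real.exp_pos y
  have h1 : Real.exp y ≤ 3 + √8 := by
    have := Real.exp_le_exp.2 hy
    unfold lep at this
    rwa [Real.exp_log (by positivity)] at this
  rw [WRZ_F, div_mul_eq_mul_div, div_le_iff₀ (by positivity)]
  nlinarith [WRZ_s8lo]

lemma WRZ_lo (y : ℝ) (hy : -lep ≤ y) : -2 ≤ Real.tanh (y / 2) * √8 := by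
  have h := WRZ_up (-y) (by linarith)
  rw [neg_div, Real.tanh_neg] at h
  linarith

/-- the condition on the coordinates -/
def WRZ_C (sg n m : ℤ) : Prop := if sg = 1 then 4 * |m| < n else |m| < 2 * n

lemma WRZ_yy (sg : ℤ) (hsg : sg = 1 ∨ sg = -1) (n m : ℤ) (h : WRZ_C sg n m) :
    yy (pz sg n m) = Real.log ((rb sg * n + m) / (rb sg * n - m)) ∧ |(m : ℝ)| < rb sg * n := by
  have s1 := WRZ_s8
  have s2 := WRZ_s8pos
  have s3 := WRZ_s8lo
  have s4 := WRZ_s8hi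
  rcases hsg with rfl | rfl
  · have h1 : 4 * |m| < n := by simpa [WRZ_C] using h
    have h2 : 4 * |(m : ℝ)| < n := by exact_mod_cast h1
    have h3 : |(m : ℝ)| * √8 < n := by nlinarith [abs_nonneg (m : ℝ)]
    have h4 : |(m : ℝ)| < 1 / √8 * n := by
      rw [one_div, ← div_eq_inv_mul, lt_div_iff₀ s2]
      exact h3
    have e1 : rb 1 = 1 / √8 := by unfold rb; rw [if_pos rfl]
    have e2 : pz 1 n m = (n, m) := by unfold pz; rw [if_pos rfl]
    rw [e1, e2]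
    refine ⟨?_, h4⟩
    have h5 : |(m : ℝ) * √8| < n := by rw [abs_mul, abs_of_pos s2]; exact h3
    obtain ⟨a1, a2⟩ := abs_lt.1 h5
    unfold yy
    change Real.log (|(n : ℝ) + m * √8| / |(n : ℝ) - m * √8|) = _
    rw [abs_of_pos (by linarith), abs_of_pos (by linarith)]
    congr 1
    obtain ⟨b1, b2⟩ := abs_lt.1 h4
    rw [div_eq_div_iff (by linarith) (by linarith)]
    have e3 : (1 / √8 * (n : ℝ)) * √8 = n := by field_simp
    have e4 : (1 / √8 * (n : ℝ)) = n * √8 / 8 := by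
      have e5 : 1 / √8 = √8 / 8 := by rw [div_eq_div_iff s2.ne' (by norm_num), one_mul, s1]
      rw [e5]
      ring
    rw [e4]
    ring_nf
    rw [show √8 ^ 2 = (8 : ℝ) by rw [sq]; exact s1]
    ring
  · have h1 : |m| < 2 * n := by simpa [WRZ_C] using h
    have h2 : |(m : ℝ)| < 2 * n := by exact_mod_cast h1
    have h0 : (0 : ℝ) < n := by nlinarith [abs_nonneg (m : ℝ)]
    have h4 : |(m : ℝ)| < √8 * n := by nlinarith
    have e1 : rb (-1) = √8 := by unfold rb; rw [if_neg (by norm_num)]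
    have e2 : pz (-1) n m = (m, n) := by unfold pz; rw [if_neg (by norm_num)]
    rw [e1, e2]
    refine ⟨?_, h4⟩
    obtain ⟨b1, b2⟩ := abs_lt.1 h4
    unfold yy
    change Real.log (|(m : ℝ) + n * √8| / |(m : ℝ) - n * √8|) = _
    rw [abs_of_pos (by linarith), abs_of_neg (by linarith)]
    congr 1
    congr 1 <;> ring

lemma WRZ_iff (sg : ℤ) (hsg : sg = 1 ∨ sg = -1) (n m : ℤ) (h : WRZ_C sg n m) (y y' : ℝ) :
    (y < yy (pz sg n m) ∧ yy (pz sg n m) ≤ y') ↔ (rb sg * n * Real.tanh (y / 2) < m ∧ (m : ℝ) ≤ rb sg * n * Real.tanh (y' / 2)) := by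
  obtain ⟨h1, h2⟩ := WRZ_yy sg hsg n m h
  rw [h1]
  exact and_congr (WRZ_lt _ _ _ h2) (not_lt.symm.trans ((not_congr (WRZ_lt _ _ _ h2)).trans not_lt))

lemma WRZ_fd (sg : ℤ) (hsg : sg = 1 ∨ sg = -1) (n m : ℤ) :
    (Fd (pz sg n m) ∧ (N8 (pz sg n m)).sign = sg) ↔ ((pz sg n m).1 % 2 = 1 ∧ WRZ_C sg n m) := by
  rcases hsg with rfl | rfl
  · have e2 : pz 1 n m = (n, m) := by unfold pz; rw [if_pos rfl]
    have e3 : WRZ_C 1 n m ↔ 4 * |m| < n := by simp [WRZ_C]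
    rw [e2, e3]
    unfold Fd N8
    dsimp only
    rw [Int.sign_eq_one_iff_pos]
    constructor
    · rintro ⟨⟨h1, h2⟩, h3⟩
      refine ⟨h1, ?_⟩
      rcases h2 with h2 | h2
      · exact h2
      · exfalso
        have h4 : |n| ^ 2 < (2 * m) ^ 2 := by
          have := abs_nonneg n
          nlinarith
        rw [sq_abs] at h4
        nlinarith [sq_nonneg m]
    · rintro ⟨h1, h2⟩
      refine ⟨⟨h1, Or.inl h2⟩, ?_⟩
      have h3 := abs_nonneg m
      have h4 : (4 * |m|) ^ 2 < n ^ 2 := by nlinarith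
      rw [mul_pow, sq_abs] at h4
      nlinarith [sq_nonneg m]
  · have e2 : pz (-1) n m = (m, n) := by unfold pz; rw [if_neg (by norm_num)]
    have e3 : WRZ_C (-1) n m ↔ |m| < 2 * n := by simp [WRZ_C]
    rw [e2, e3]
    unfold Fd N8
    dsimp only
    rw [Int.sign_eq_neg_one_iff_neg]
    constructor
    · rintro ⟨⟨h1, h2⟩, h3⟩
      refine ⟨h1, ?_⟩
      rcases h2 with h2 | h2
      · exfalso
        have h5 := abs_nonneg n
        have h4 : (4 * |n|) ^ 2 < m ^ 2 := by nlinarith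
        rw [mul_pow, sq_abs] at h4
        nlinarith [sq_nonneg n]
      · exact h2
    · rintro ⟨h1, h2⟩
      refine ⟨⟨h1, Or.inr h2⟩, ?_⟩
      have h3 := abs_nonneg m
      have h4 : |m| ^ 2 < (2 * n) ^ 2 := by nlinarith
      rw [sq_abs] at h4
      nlinarith [sq_nonneg n]

/-- the weak condition on the coordinates -/
def WRZ_D (sg n m : ℤ) : Prop := if sg = 1 then -n < 4 * m ∧ 4 * m ≤ n else -(2 * n) < m ∧ m ≤ 2 * n

lemma WRZ_weak (sg : ℤ) (hsg : sg = 1 ∨ sg = -1) (n m : ℤ) (hn : 1 ≤ n) (y y' : ℝ) (hy : -lep ≤ y) (hy' : y' ≤ lep)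
    (h : rb sg * n * Real.tanh (y / 2) < m ∧ (m : ℝ) ≤ rb sg * n * Real.tanh (y' / 2)) : WRZ_D sg n m := by
  have s1 := WRZ_s8
  have s2 := WRZ_s8pos
  have t1 := WRZ_lo y hy
  have t2 := WRZ_up y' hy'
  obtain ⟨h1, h2⟩ := h
  have hn0 : (0 : ℝ) < n := by exact_mod_cast (by omega : (0 : ℤ) < n)
  unfold WRZ_D
  rcases hsg with rfl | rfl
  · rw [if_pos rfl]
    have e1 : rb 1 = √8 / 8 := by
      unfold rb; rw [if_pos rfl, div_eq_div_iff s2.ne' (by norm_num), one_mul, s1]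
    rw [e1] at h1 h2
    constructor
    · have : (-(n : ℝ)) < 4 * m := by nlinarith
      exact_mod_cast this
    · have : 4 * (m : ℝ) ≤ n := by nlinarith
      exact_mod_cast this
  · rw [if_neg (by norm_num)]
    have e1 : rb (-1) = √8 := by unfold rb; rw [if_neg (by norm_num)]
    rw [e1] at h1 h2
    constructor
    · have : (-(2 * (n : ℝ))) < m := by nlinarith
      exact_mod_cast this
    · have : (m : ℝ) ≤ 2 * n := by nlinarith
      exact_mod_cast this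

lemma WRZ_strict (sg : ℤ) (hsg : sg = 1 ∨ sg = -1) (n m : ℤ) (h : WRZ_D sg n m) (ho : (pz sg n m).1 % 2 = 1) : WRZ_C sg n m := by
  unfold WRZ_D at h
  unfold WRZ_C
  rcases hsg with rfl | rfl
  · rw [if_pos rfl] at h ⊢
    have e2 : pz 1 n m = (n, m) := by unfold pz; rw [if_pos rfl]
    rw [e2] at ho
    dsimp only at ho
    rcases abs_cases m with ⟨e, _⟩ | ⟨e, _⟩ <;> rw [e] <;> omega
  · rw [if_neg (by norm_num)] at h ⊢
    have e2 : pz (-1) n m = (m, n) := by unfold pz; rw [if_neg (by norm_num)]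
    rw [e2] at ho
    dsimp only at ho
    rcases abs_cases m with ⟨e, _⟩ | ⟨e, _⟩ <;> rw [e] <;> omega

lemma WRZ_odd (q : ℕ) (a c : ℤ) (h2 : 2 ∣ q) (hq : (q : ℤ) ∣ a - c) (hc : c % 2 = 1) : a % 2 = 1 := by
  have h3 : (2 : ℤ) ∣ a - c := (by exact_mod_cast h2 : (2 : ℤ) ∣ (q : ℤ)).trans hq
  omega

/-- the norm on the rows -/
lemma WRZ_nn (sg : ℤ) (hsg : sg = 1 ∨ sg = -1) (n m : ℤ) (hn : 1 ≤ n) (h : WRZ_D sg n m) :
    (nn (pz sg n m) : ℝ) = ra sg * n ^ 2 - ra sg / rb sg ^ 2 * m ^ 2 ∧ ra sg * (n : ℝ) ^ 2 ≤ 2 * nn (pz sg n m) := by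
  have s1 := WRZ_s8
  have s2 := WRZ_s8pos
  unfold WRZ_D at h
  rcases hsg with rfl | rfl
  · rw [if_pos rfl] at h
    have e2 : pz 1 n m = (n, m) := by unfold pz; rw [if_pos rfl]
    have e1 : rb 1 = 1 / √8 := by unfold rb; rw [if_pos rfl]
    have e0 : ra 1 = 1 := by unfold ra; rw [if_pos rfl]
    have h3 : (4 * m) ^ 2 ≤ n ^ 2 := by
      rw [sq_le_sq, abs_le]
      rw [abs_of_pos (by omega : (0 : ℤ) < n)]
      omega
    have h4 : 0 ≤ n ^ 2 - 8 * m ^ 2 := by nlinarith [sq_nonneg m]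
    have e3 : (nn (pz 1 n m) : ℝ) = (n : ℝ) ^ 2 - 8 * m ^ 2 := by
      rw [e2]
      unfold nn N8
      dsimp only
      rw [Nat.cast_natAbs, abs_of_nonneg h4]
      push_cast
      ring
    have e4 : ra 1 / rb 1 ^ 2 = 8 := by
      rw [e0, e1, div_pow, one_pow, sq, s1]
      norm_num
    rw [e4, e3, e0]
    have h5 : (4 * (m : ℝ)) ^ 2 ≤ (n : ℝ) ^ 2 := by exact_mod_cast h3
    constructor <;> nlinarith
  · rw [if_neg (by norm_num)] at h
    have e2 : pz (-1) n m = (m, n) := by unfold pz; rw [if_neg (by norm_num)]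
    have e1 : rb (-1) = √8 := by unfold rb; rw [if_neg (by norm_num)]
    have e0 : ra (-1) = 8 := by unfold ra; rw [if_neg (by norm_num)]
    have h3 : m ^ 2 ≤ (2 * n) ^ 2 := by
      rw [sq_le_sq, abs_le]
      rw [abs_of_pos (by omega : (0 : ℤ) < 2 * n)]
      omega
    have h4 : m ^ 2 - 8 * n ^ 2 ≤ 0 := by nlinarith [sq_nonneg n]
    have e3 : (nn (pz (-1) n m) : ℝ) = 8 * (n : ℝ) ^ 2 - m ^ 2 := by
      rw [e2]
      unfold nn N8
      dsimp only
      rw [Nat.cast_natAbs, abs_of_nonpos h4]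
      push_cast
      ring
    have e4 : ra (-1) / rb (-1) ^ 2 = 1 := by
      rw [e0, e1, sq, s1]
      norm_num
    rw [e4, e3, e0]
    have h5 : (m : ℝ) ^ 2 ≤ (2 * (n : ℝ)) ^ 2 := by exact_mod_cast h3
    constructor <;> nlinarith

/-- outer and inner coordinates -/
def WRZ_o (sg : ℤ) (z : ℤ × ℤ) : ℤ := if sg = 1 then z.1 else z.2
/-- outer and inner coordinates -/
def WRZ_i (sg : ℤ) (z : ℤ × ℤ) : ℤ := if sg = 1 then z.2 else z.1

lemma WRZ_pz (sg : ℤ) (z : ℤ × ℤ) : pz sg (WRZ_o sg z) (WRZ_i sg z) = z := by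
  unfold pz WRZ_o WRZ_i
  split_ifs <;> rfl

lemma WRZ_oi (sg n m : ℤ) : WRZ_o sg (pz sg n m) = n ∧ WRZ_i sg (pz sg n m) = m := by
  unfold pz WRZ_o WRZ_i
  split_ifs <;> exact ⟨rfl, rfl⟩

lemma WRZ_box (sg n m : ℤ) (h : WRZ_C sg n m) : 1 ≤ n ∧ -(2 * n) ≤ m ∧ m ≤ 2 * n := by
  unfold WRZ_C at h
  have := abs_nonneg m
  split_ifs at h with h1
  · rcases abs_cases m with ⟨e, _⟩ | ⟨e, _⟩ <;> rw [e] at h <;> omega
  · rcases abs_cases m with ⟨e, _⟩ | ⟨e, _⟩ <;> rw [e] at h <;> omega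

theorem WRZ (hSIZ : SIZ_stmt) : WRZ_stmt := by
  classical
  intro M M' q c sg y h hsg hy hh hyh
  have hweak : ∀ n : ℤ, 1 ≤ n → ∀ m ∈ RowS M M' q c sg y h n, WRZ_D sg n m := by
    intro n hn m hm
    unfold RowS at hm
    rw [mem_filter] at hm
    exact WRZ_weak sg hsg n m hn y (y + h) hy hyh ⟨hm.2.1, hm.2.2.1⟩
  refine ⟨fun t h2 hq hc => ?_, fun n hn => ⟨fun m hm => (WRZ_nn sg hsg n m hn (hweak n hn m hm)).1, ?_, ?_⟩⟩
  · unfold WF
    rw [Finset.sum_sigma']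
    refine Finset.sum_bij' (fun z _ => ⟨WRZ_o sg z, WRZ_i sg z⟩) (fun x _ => pz sg x.1 x.2) ?_ ?_ ?_ ?_ ?_
    · intro z hz
      unfold FF at hz
      rw [mem_filter, mem_filter, mem_product, mem_Icc, mem_Icc] at hz
      obtain ⟨⟨⟨hb1, hb2⟩, hF, hM'⟩, hM, hc1, hc2, hs, hy1, hy2⟩ := hz
      have hz' : pz sg (WRZ_o sg z) (WRZ_i sg z) = z := WRZ_pz sg z
      have h5 := (WRZ_fd sg hsg (WRZ_o sg z) (WRZ_i sg z)).1 (by rw [hz']; exact ⟨hF, hs⟩)
      have h6 := WRZ_box _ _ _ h5.2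
      have h7 := (WRZ_iff sg hsg (WRZ_o sg z) (WRZ_i sg z) h5.2 y (y + h)).1 (by rw [hz']; exact ⟨hy1, hy2⟩)
      rw [mem_sigma, mem_Icc]
      dsimp only
      refine ⟨⟨h6.1, ?_⟩, ?_⟩
      · unfold WRZ_o
        split_ifs
        · exact_mod_cast hb1.2
        · exact_mod_cast hb2.2
      · unfold RowS
        rw [mem_filter, mem_Icc, hz']
        exact ⟨h6.2, h7.1, h7.2, hM, hM', hc1, hc2⟩
    · intro x hx
      rw [mem_sigma, mem_Icc] at hx
      obtain ⟨⟨hn1, hn2⟩, hm⟩ := hx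
      have hw := hweak x.1 hn1 x.2 hm
      unfold RowS at hm
      rw [mem_filter] at hm
      obtain ⟨hm0, hy1, hy2, hM, hM', hc1, hc2⟩ := hm
      have ho : (pz sg x.1 x.2).1 % 2 = 1 := WRZ_odd q _ c.1 h2 hc1 hc
      have hC := WRZ_strict sg hsg x.1 x.2 hw ho
      obtain ⟨hF, hs⟩ := (WRZ_fd sg hsg x.1 x.2).2 ⟨ho, hC⟩
      have h7 := (WRZ_iff sg hsg x.1 x.2 hC y (y + h)).2 ⟨hy1, hy2⟩
      have h8 := (hSIZ _ hF).2.2.2.1
      rw [mem_filter]
      refine ⟨?_, hM, hc1, hc2, hs, h7.1, h7.2⟩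
      unfold FF at h8 ⊢
      rw [mem_filter, mem_product, mem_Icc, mem_Icc] at h8 ⊢
      have h9 : ((nn (pz sg x.1 x.2) : ℕ) : ℤ) ≤ (M' : ℤ) := by exact_mod_cast hM'
      refine ⟨⟨⟨?_, ?_⟩, ⟨?_, ?_⟩⟩, hF, hM'⟩
      · linarith [h8.1.1.1]
      · linarith [h8.1.1.2]
      · linarith [h8.1.2.1]
      · linarith [h8.1.2.2]
    · intro z _
      exact WRZ_pz sg z
    · intro x _
      have := WRZ_oi sg x.1 x.2
      exact Sigma.ext this.1 (heq_of_eq this.2)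
    · intro z _
      dsimp only
      rw [WRZ_pz]
  · rintro ⟨m, hm⟩
    have hw := hweak n hn m hm
    obtain ⟨e1, e2⟩ := WRZ_nn sg hsg n m hn hw
    unfold RowS at hm
    rw [mem_filter] at hm
    obtain ⟨-, -, -, hM, hM', -, -⟩ := hm
    have hM1 : (M : ℝ) < nn (pz sg n m) := by exact_mod_cast hM
    have hM2 : (nn (pz sg n m) : ℝ) ≤ M' := by exact_mod_cast hM'
    constructor
    · have h3 : 0 ≤ ra sg / rb sg ^ 2 * (m : ℝ) ^ 2 := by
        have : 0 ≤ ra sg := by unfold ra; split_ifs <;> norm_num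
        positivity
      linarith
    · linarith
  · -- the number of elements
    have s2 := WRZ_s8pos
    have s3 := WRZ_s8hi
    have s4 := WRZ_s8lo
    have hn0 : (0 : ℝ) < n := by exact_mod_cast (by omega : (0 : ℤ) < n)
    have hrb : 0 < rb sg ∧ rb sg ≤ 3 := by
      unfold rb
      split_ifs
      · refine ⟨by positivity, ?_⟩
        rw [div_le_iff₀ s2]
        linarith
      · exact ⟨s2, s3.le⟩
    set A : ℝ := rb sg * n * Real.tanh (y / 2) with hA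
    set B : ℝ := rb sg * n * Real.tanh ((y + h) / 2) with hB
    have h1 : RowS M M' q c sg y h n ⊆ Ioc ⌊A⌋ ⌊B⌋ := by
      intro m hm
      unfold RowS at hm
      rw [mem_filter] at hm
      rw [mem_Ioc]
      exact ⟨Int.floor_lt.2 hm.2.1, Int.le_floor.2 hm.2.2.1⟩
    have h2 := Finset.card_le_card h1
    rw [Int.card_Ioc] at h2
    have h3 : ((⌊B⌋ - ⌊A⌋).toNat : ℝ) ≤ max (B - A + 1) 0 := by
      have h4 : (((⌊B⌋ - ⌊A⌋).toNat : ℤ) : ℝ) ≤ max (B - A + 1) 0 := by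
        rw [Int.toNat_eq_max, Int.cast_max]
        push_cast
        refine max_le_max ?_ le_rfl
        have := Int.floor_le B
        have := Int.lt_floor_add_one A
        linarith
      exact_mod_cast h4
    have h5 : B - A ≤ 2 * n * h := by
      have h6 := WRZ_lip y h hh
      have h7 : B - A = rb sg * n * (Real.tanh ((y + h) / 2) - Real.tanh (y / 2)) := by rw [hA, hB]; ring
      rw [h7]
      calc rb sg * n * (Real.tanh ((y + h) / 2) - Real.tanh (y / 2)) ≤ rb sg * n * (h / 2) := by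
            refine mul_le_mul_of_nonneg_left h6 ?_
            have := hrb.1
            positivity
        _ ≤ 3 * n * (h / 2) := by
            refine mul_le_mul_of_nonneg_right ?_ (by positivity)
            exact mul_le_mul_of_nonneg_right hrb.2 hn0.le
        _ ≤ 2 * n * h := by nlinarith [mul_nonneg hn0.le hh]
    have h8 : (#(RowS M M' q c sg y h n) : ℝ) ≤ ((⌊B⌋ - ⌊A⌋).toNat : ℝ) := by exact_mod_cast h2
    refine h8.trans (h3.trans (max_le (by linarith) ?_))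
    have := mul_nonneg (mul_nonneg (by norm_num : (0 : ℝ) ≤ 2) hn0.le) hh
    linarith

end Pool.Agent.EU
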